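import Pool.Agent.L7h48.RT.Stm

/-! Project RT, parts MRG and AVO (helper23). -/

set_option autoImplicit false

namespace Pool.Agent.L7h23.RT
open Pool.Agent.L7h48.RT
open scoped Classical

lemma E_comb {ι S : Type} [Fintype ι] [DecidableEq ι] [Fintype S] [DecidableEq S] (m : S → S → S)
    (u v w : S → ℝ)
    (h : ∀ s, w s = ∑ ab : S × S, if m ab.1 ab.2 = s then u ab.1 * v ab.2 else 0)
    (f : (ι → S) → ℝ) :
    E w f = E u (fun x => E v (fun z => f (fun e => m (x e) (z e)))) := by
  unfold E
  have h1 : ∀ y : ι → S, ∏ e, w (y e) = ∑ xz : ι → S × S,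
      if (fun e => m (xz e).1 (xz e).2) = y then ∏ e, (u (xz e).1 * v (xz e).2) else 0 := by
    intro y
    simp_rw [h]
    rw [Finset.prod_univ_sum, Fintype.piFinset_univ]
    apply Finset.sum_congr rfl
    intro xz _
    rw [Finset.prod_ite_zero]
    by_cases hy : (fun e => m (xz e).1 (xz e).2) = y
    · rw [if_pos hy, if_pos (fun e _ => congrFun hy e)]
    · rw [if_neg hy, if_neg (fun h' => hy (funext fun e => h' e (Finset.mem_univ e)))]
  have h2 : ∀ xz : ι → S × S, ∑ y : ι → S,
      (if (fun e => m (xz e).1 (xz e).2) = y then ∏ e, (u (xz e).1 * v (xz e).2) else 0) * f y =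
      (∏ e, (u (xz e).1 * v (xz e).2)) * f (fun e => m (xz e).1 (xz e).2) := by
    intro xz
    simp only [ite_mul, zero_mul, Finset.sum_ite_eq, Finset.mem_univ, if_true]
  simp_rw [h1, Finset.sum_mul]
  rw [Finset.sum_comm]
  simp_rw [h2]
  calc ∑ xz : ι → S × S, (∏ e, (u (xz e).1 * v (xz e).2)) * f (fun e => m (xz e).1 (xz e).2)
      = ∑ p : (ι → S) × (ι → S), (∏ e, (u (p.1 e) * v (p.2 e))) *
          f (fun e => m (p.1 e) (p.2 e)) :=
        Fintype.sum_equiv (Equiv.arrowProdEquivProdArrow _ _ _) _ _ (fun _ => rfl)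
    _ = ∑ x : ι → S, ∑ z : ι → S, (∏ e, (u (x e) * v (z e))) * f (fun e => m (x e) (z e)) :=
        Fintype.sum_prod_type _
    _ = _ := by
        apply Finset.sum_congr rfl
        intro x _
        rw [Finset.mul_sum]
        apply Finset.sum_congr rfl
        intro z _
        rw [Finset.prod_mul_distrib, mul_assoc]

lemma sum_w1 (c : ℕ) (q : ℝ) (hc : 0 < c) : ∑ b : Option (Fin c), w1 c q b = 1 := by
  rw [Fintype.sum_option]
  have hc' : (c : ℝ) ≠ 0 := by positivity
  simp [w1]
  field_simp
  ring

theorem s_MRG : S_MRG := by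
  intro n c p q f hc
  have hc' : (c : ℝ) ≠ 0 := by positivity
  refine E_comb (fun a b => a.orElse fun _ => b) (w1 c p) (w1 c q) _ ?_ f
  intro s
  rw [Fintype.sum_prod_type, Fintype.sum_option]
  have h1 : ∑ b : Option (Fin c), (if ((none : Option (Fin c)).orElse fun _ => b) = s then
      w1 c p none * w1 c q b else 0) = w1 c p none * w1 c q s := by
    show ∑ b : Option (Fin c), (if b = s then w1 c p none * w1 c q b else 0) = _
    exact (Finset.sum_ite_eq' Finset.univ s (fun b => w1 c p none * w1 c q b)).trans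
      (if_pos (Finset.mem_univ s))
  have h2 : ∀ j : Fin c, ∑ b : Option (Fin c), (if ((some j).orElse fun _ => b) = s then
      w1 c p (some j) * w1 c q b else 0) = if some j = s then w1 c p (some j) else 0 := by
    intro j
    show ∑ b : Option (Fin c), (if some j = s then w1 c p (some j) * w1 c q b else 0) = _
    by_cases hj : some j = s
    · simp only [if_pos hj]
      rw [← Finset.mul_sum, sum_w1 c q hc, mul_one]
    · simp only [if_neg hj]
      exact Finset.sum_const_zero
  dsimp only
  rw [h1]
  simp_rw [h2]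
  cases s with
  | none =>
    simp [w1]
    ring
  | some i =>
    simp [w1]
    field_simp
    ring

theorem s_AVO : S_AVO := by
  intro n c q P Q hc hq hq1
  have hc' : (0 : ℝ) < c := by exact_mod_cast hc
  unfold E
  have h1 : ∀ z : Col n c, (∏ e, w1 c q (z e)) * ind (∀ e ∈ P, ∀ j ∈ Q, z e ≠ some j) =
      ∏ e, (w1 c q (z e) * if (e ∈ P ∧ ∃ j ∈ Q, z e = some j) then 0 else 1) := by
    intro z
    rw [Finset.prod_mul_distrib]
    congr 1
    unfold ind
    by_cases h : ∀ e ∈ P, ∀ j ∈ Q, z e ≠ some j
    · rw [if_pos h]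
      symm
      apply Finset.prod_eq_one
      intro e _
      rw [if_neg]
      rintro ⟨he, j, hj, hz⟩
      exact h e he j hj hz
    · rw [if_neg h]
      push Not at h
      obtain ⟨e, he, j, hj, hz⟩ := h
      symm
      apply Finset.prod_eq_zero (Finset.mem_univ e)
      rw [if_pos ⟨he, j, hj, hz⟩]
  simp_rw [h1]
  have h2 : ∑ z : Col n c, ∏ e, (w1 c q (z e) *
      if (e ∈ P ∧ ∃ j ∈ Q, z e = some j) then (0 : ℝ) else 1) =
      ∏ e : Pr n, ∑ s : Option (Fin c), (w1 c q s *
      if (e ∈ P ∧ ∃ j ∈ Q, s = some j) then (0 : ℝ) else 1) := by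
    rw [Finset.prod_univ_sum, Fintype.piFinset_univ]
  rw [h2]
  have h3 : ∀ e : Pr n, ∑ s : Option (Fin c), (w1 c q s *
      if (e ∈ P ∧ ∃ j ∈ Q, s = some j) then (0 : ℝ) else 1) =
      if e ∈ P then 1 - q * Q.card / c else 1 := by
    intro e
    by_cases he : e ∈ P
    · rw [if_pos he]
      have h4 := sum_w1 c q hc
      rw [Fintype.sum_option] at h4 ⊢
      have h5 : ∑ j : Fin c, (w1 c q (some j) *
          if (e ∈ P ∧ ∃ j' ∈ Q, some j = some j') then (0 : ℝ) else 1) =
          ∑ j : Fin c, w1 c q (some j) - ∑ j ∈ Q, q / c := by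
        rw [eq_sub_iff_add_eq, ← Finset.sum_filter_add_sum_filter_not Finset.univ (fun j => j ∈ Q)
          (fun j : Fin c => w1 c q (some j))]
        rw [← Finset.sum_filter_add_sum_filter_not Finset.univ (fun j => j ∈ Q)
          (fun j : Fin c => (w1 c q (some j) *
          if (e ∈ P ∧ ∃ j' ∈ Q, some j = some j') then (0 : ℝ) else 1))]
        have h6 : ∑ j ∈ Finset.univ.filter (fun j => j ∈ Q), (w1 c q (some j) *
          if (e ∈ P ∧ ∃ j' ∈ Q, some j = some j') then (0 : ℝ) else 1) = 0 := by
          apply Finset.sum_eq_zero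
          intro j hj
          rw [if_pos ⟨he, j, (Finset.mem_filter.1 hj).2, rfl⟩, mul_zero]
        have h7 : ∑ j ∈ Finset.univ.filter (fun j => j ∉ Q), (w1 c q (some j) *
          if (e ∈ P ∧ ∃ j' ∈ Q, some j = some j') then (0 : ℝ) else 1) =
          ∑ j ∈ Finset.univ.filter (fun j => j ∉ Q), w1 c q (some j) := by
          apply Finset.sum_congr rfl
          intro j hj
          rw [if_neg, mul_one]
          rintro ⟨_, j', hj', hjj⟩
          exact (Finset.mem_filter.1 hj).2 (by rw [Option.some.inj hjj]; exact hj')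
        have h8 : ∑ j ∈ Finset.univ.filter (fun j => j ∈ Q), w1 c q (some j) =
            ∑ j ∈ Q, q / c := by
          have : Finset.univ.filter (fun j => j ∈ Q) = Q := by ext; simp
          rw [this]
          apply Finset.sum_congr rfl
          intro j _
          simp [w1]
        rw [h6, h7, h8]
        ring
      rw [h5]
      have h9 : ¬ (e ∈ P ∧ ∃ j ∈ Q, (none : Option (Fin c)) = some j) := by
        rintro ⟨_, j, _, hj⟩
        cases hj
      rw [if_neg h9, mul_one, Finset.sum_const, nsmul_eq_mul]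
      have h10 : (Q.card : ℝ) * (q / c) = q * Q.card / c := by ring
      rw [h10]
      linarith
    · rw [if_neg he]
      refine Eq.trans ?_ (sum_w1 c q hc)
      apply Finset.sum_congr rfl
      intro s _
      rw [if_neg (fun h => he h.1), mul_one]
  simp_rw [h3]
  rw [Finset.prod_ite_mem, Finset.univ_inter, Finset.prod_const]
  have hQ : (Q.card : ℝ) ≤ c := by
    have := Finset.card_le_univ Q
    rw [Fintype.card_fin] at this
    exact_mod_cast this
  have h11 : 0 ≤ 1 - q * Q.card / c := by
    rw [sub_nonneg, div_le_one hc']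
    calc q * Q.card ≤ 1 * c := mul_le_mul hq1 hQ (by positivity) zero_le_one
      _ = c := one_mul _
  calc (1 - q * Q.card / c) ^ P.card ≤ (Real.exp (-(q * Q.card / c))) ^ P.card :=
        pow_le_pow_left₀ h11 (by
          have := Real.add_one_le_exp (-(q * Q.card / c))
          linarith) _
    _ = Real.exp (-(q * Q.card / c * P.card)) := by
        rw [← Real.exp_nat_mul]
        congr 1
        ring

end Pool.Agent.L7h23.RT
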